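import Mathlib
import Pool.Agent.Lib.MP_85963d_gt.Interfaces

/-!
# Auxiliary facts on frame vectors: smoothness, homogeneity, left rotations, coordinates
-/

set_option autoImplicit false

open MeasureTheory Set Filter Topology Quaternion
open scoped Real ContDiff

namespace Pool.Agent.MP85963d.H37

open Pool.Agent.MP85963d SF

theorem contDiffAt_quatInv {x : ℍ} (hx : x ≠ 0) : ContDiffAt ℝ ∞ (fun y : ℍ => y⁻¹) x := by
  have h := contDiffAt_ringInverse ℝ (n := ∞) (Units.mk0 x hx)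
  rw [Ring.inverse_eq_inv'] at h
  exact h

theorem contDiffAt_fr (a : ℍ) {x : ℍ} (hx : x ≠ 0) : ContDiffAt ℝ ∞ (fr a) x := by
  have h1 : ContDiffAt ℝ ∞ (fun y : ℍ => y * a * y⁻¹) x :=
    ContDiffAt.mul (by fun_prop) (contDiffAt_quatInv hx)
  exact im3.contDiff.contDiffAt.comp x h1

theorem contDiffAt_fr_apply (a : ℍ) (i : Fin 3) {x : ℍ} (hx : x ≠ 0) :
    ContDiffAt ℝ ∞ (fun y => fr a y i) x := by
  have h := contDiffAt_fr a hx
  exact (EuclideanSpace.proj (𝕜 := ℝ) i).contDiff.contDiffAt.comp x h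

theorem contDiffAt_fu (i : Fin 3) {x : ℍ} (hx : x ≠ 0) : ContDiffAt ℝ ∞ (fun y => fu y i) x :=
  contDiffAt_fr_apply qI i hx

theorem contDiffAt_fv (i : Fin 3) {x : ℍ} (hx : x ≠ 0) : ContDiffAt ℝ ∞ (fun y => fv y i) x :=
  contDiffAt_fr_apply qJ i hx

theorem contDiffAt_fe (i : Fin 3) {x : ℍ} (hx : x ≠ 0) : ContDiffAt ℝ ∞ (fun y => fe y i) x :=
  contDiffAt_fr_apply qK i hx

theorem fr_smul_left (a x : ℍ) {r : ℝ} (hr : r ≠ 0) : fr a (r • x) = fr a x := by
  rw [fr, fr, conjQ, conjQ]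
  congr 1
  by_cases hx : x = 0
  · subst hx; simp
  · have h0 : r • x ≠ 0 := smul_ne_zero hr hx
    rw [mul_inv_eq_iff_eq_mul₀ h0, smul_mul_assoc, mul_smul_comm, mul_assoc,
      inv_mul_cancel₀ hx, mul_one]

theorem fu_smul_left (x : ℍ) {r : ℝ} (hr : r ≠ 0) : fu (r • x) = fu x := fr_smul_left _ _ hr
theorem fv_smul_left (x : ℍ) {r : ℝ} (hr : r ≠ 0) : fv (r • x) = fv x := fr_smul_left _ _ hr
theorem fe_smul_left (x : ℍ) {r : ℝ} (hr : r ≠ 0) : fe (r • x) = fe x := fr_smul_left _ _ hr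

theorem quat_decomp (w : ℍ) : w = w.re • (1 : ℍ) + w.imI • qI + w.imJ • qJ + w.imK • qK := by
  apply Quaternion.ext <;> simp <;> simp [qI, qJ, qK]

theorem conjQ_one {x : ℍ} (hx : x ≠ 0) : conjQ x 1 = 1 := by simp [conjQ, hx]

/-- the effect of left rotations about the third axis on the frame vectors -/
theorem fr_lrotK (α : ℝ) (a x : ℍ) :
    fr a (rot qK α * x) = !₂[Real.cos α * fr a x 0 - Real.sin α * fr a x 1,
      Real.sin α * fr a x 0 + Real.cos α * fr a x 1, fr a x 2] := by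
  have h1 : conjQ (rot qK α * x) a = conjQ (rot qK α) (conjQ x a) := conjQ_mul _ _ _
  have h0 := rot_ne_zero isImUnit_K α
  have h2 : conjQ (rot qK α) (conjQ x a)
      = (conjQ x a).re • (1:ℍ)
        + (conjQ x a).imI • (Real.cos α • qI + Real.sin α • qJ)
        + (conjQ x a).imJ • (Real.cos α • qJ - Real.sin α • qI)
        + (conjQ x a).imK • qK := by
    conv_lhs => rw [quat_decomp (conjQ x a)]
    rw [conjQ_add, conjQ_add, conjQ_add, conjQ_smul, conjQ_smul, conjQ_smul, conjQ_smul,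
      conjQ_one h0, conj_rotK_I, conj_rotK_J, conj_rot_self isImUnit_K]
  rw [fr, h1, h2]
  ext i
  fin_cases i
  · simp [fr]; simp [qI, qJ, qK]; ring
  · simp [fr]; simp [qI, qJ, qK]; ring
  · simp [fr]; simp [qI, qJ, qK]

/-- the effect of left multiplication with `j` on the frame vectors -/
theorem fr_lJ (a x : ℍ) : fr a (qJ * x) = !₂[- fr a x 0, fr a x 1, - fr a x 2] := by
  have h1 : conjQ (qJ * x) a = conjQ qJ (conjQ x a) := conjQ_mul _ _ _
  have hJ : qJ⁻¹ = -qJ := by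
    rw [inv_eq_iff_eq_inv, eq_comm]
    exact inv_eq_of_mul_eq_one_left (by rw [mul_neg, isImUnit_J.sq, neg_neg])
  have e : ∀ b, conjQ qJ b = -(qJ * b * qJ) := fun b => by rw [conjQ, hJ, mul_neg]
  have h0 : qJ ≠ 0 := by
    intro h
    have := isImUnit_J.norm_eq
    simp [h] at this
  have eI : conjQ qJ qI = -qI := by rw [e, qJ_mul_qI, neg_mul, qK_mul_qJ, neg_neg]
  have eJ : conjQ qJ qJ = qJ := by rw [e, isImUnit_J.sq, neg_mul, one_mul, neg_neg]
  have eK : conjQ qJ qK = -qK := by rw [e, qJ_mul_qK, qI_mul_qJ]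
  have h2 : conjQ qJ (conjQ x a)
      = (conjQ x a).re • (1:ℍ) + (conjQ x a).imI • (-qI)
        + (conjQ x a).imJ • qJ + (conjQ x a).imK • (-qK) := by
    conv_lhs => rw [quat_decomp (conjQ x a)]
    rw [conjQ_add, conjQ_add, conjQ_add, conjQ_smul, conjQ_smul, conjQ_smul, conjQ_smul,
      conjQ_one h0, eI, eJ, eK]
  rw [fr, h1, h2]
  ext i
  fin_cases i
  · simp [fr]; simp [qI, qJ, qK]
  · simp [fr]; simp [qI, qJ, qK]
  · simp [fr]; simp [qI, qJ, qK]

theorem fu_sum {x : ℍ} (hx : x ≠ 0) : fu x 0 ^ 2 + fu x 1 ^ 2 + fu x 2 ^ 2 = 1 := by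
  have h := EuclideanSpace.norm_sq_eq (fu x)
  rw [norm_fu hx, Fin.sum_univ_three] at h
  simp only [Real.norm_eq_abs, sq_abs] at h
  linarith

theorem fv_sum {x : ℍ} (hx : x ≠ 0) : fv x 0 ^ 2 + fv x 1 ^ 2 + fv x 2 ^ 2 = 1 := by
  have h := EuclideanSpace.norm_sq_eq (fv x)
  rw [norm_fv hx, Fin.sum_univ_three] at h
  simp only [Real.norm_eq_abs, sq_abs] at h
  linarith

theorem fu_fv_sum {x : ℍ} (hx : x ≠ 0) :
    fu x 0 * fv x 0 + fu x 1 * fv x 1 + fu x 2 * fv x 2 = 0 := by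
  have h := inner_fu_fv hx
  rw [PiLp.inner_apply, Fin.sum_univ_three] at h
  simp only [RCLike.inner_apply, conj_trivial] at h
  linarith

theorem fu_rotK_apply (x : ℍ) (t : ℝ) (i : Fin 3) :
    fu (x * rot qK t) i = Real.cos t * fu x i + Real.sin t * fv x i := by
  rw [fu_rotK]; simp

theorem fv_rotK_apply (x : ℍ) (t : ℝ) (i : Fin 3) :
    fv (x * rot qK t) i = Real.cos t * fv x i - Real.sin t * fu x i := by
  rw [fv_rotK]; simp

/-- second derivatives along the circles `x rot(k,t)` computed from an explicit formula -/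
theorem DXDX_eq {p : SF} {x : ℍ} (hx : x ≠ 0) {G G1 : ℝ → ℝ} {c : ℝ}
    (h1 : ∀ᶠ t in 𝓝 (0:ℝ), p (x * rot qK t) = G t)
    (h2 : ∀ᶠ t in 𝓝 (0:ℝ), HasDerivAt G (G1 t) t) (h3 : HasDerivAt G1 c 0) :
    (DX (DX p)) x = c := by
  have h4 : ∀ᶠ t in 𝓝 (0:ℝ), (DX p) (x * rot qK t) = G1 t := by
    filter_upwards [h1.eventually_nhds, h2] with t ht1 ht2
    have e : (fun t => p (x * rot qK t)) =ᶠ[𝓝 t] G := ht1
    exact ((SF.hasDerivAt_DX p hx t).congr_of_eventuallyEq e.symm).unique ht2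
  have h5 := SF.hasDerivAt_DX (DX p) hx 0
  have e : (fun t => (DX p) (x * rot qK t)) =ᶠ[𝓝 0] G1 := h4
  have h6 := (h5.congr_of_eventuallyEq e.symm).unique h3
  rwa [rot_zero, mul_one] at h6

end Pool.Agent.MP85963d.H37
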