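import Mathlib
import Pool.Agent.Lib.MP_85963d_gt.H37.FrameAux

/-!
# Module BODY: the gauge of a body of revolution is admissible
-/

set_option autoImplicit false

open MeasureTheory Set Filter Topology Quaternion
open scoped Real ContDiff

namespace Pool.Agent.MP85963d.H37

open Pool.Agent.MP85963d SF

/-! ### profiles -/

section prof

variable {h tc : ℝ} {ψ : ℝ → ℝ}

theorem prof_d0 (hp : IsProf h tc ψ) (t : ℝ) : HasDerivAt ψ (deriv ψ t) t :=
  ((hp.smooth.differentiable (by simp)) t).hasDerivAt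

theorem prof_d1 (hp : IsProf h tc ψ) (t : ℝ) : HasDerivAt (deriv ψ) (deriv (deriv ψ) t) t := by
  have h1 : ContDiff ℝ ∞ (deriv ψ) :=
    ((contDiff_infty_iff_deriv.1 hp.smooth).2)
  exact ((h1.differentiable (by simp)) t).hasDerivAt

theorem prof_deriv_odd (hp : IsProf h tc ψ) (t : ℝ) : deriv ψ (-t) = - deriv ψ t := by
  have h1 : HasDerivAt (fun s => ψ (-s)) (-(deriv ψ (-t))) t := by
    have := (prof_d0 hp (-t)).scomp t (hasDerivAt_neg t)
    simpa [Function.comp_def] using this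
  have e : (fun s => ψ (-s)) = ψ := funext hp.even
  rw [e] at h1
  have := h1.unique (prof_d0 hp t)
  linarith

theorem prof_deriv_zero (hp : IsProf h tc ψ) : deriv ψ 0 = 0 := by
  have := prof_deriv_odd hp 0
  rw [neg_zero] at this
  linarith

theorem prof_deriv_mono (hp : IsProf h tc ψ) : StrictMono (deriv ψ) :=
  strictMono_of_deriv_pos hp.conv

theorem prof_mul_deriv_nonneg (hp : IsProf h tc ψ) (t : ℝ) : 0 ≤ t * deriv ψ t := by
  have h0 := prof_deriv_zero hp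
  rcases le_total 0 t with ht | ht
  · have := (prof_deriv_mono hp).monotone ht
    exact mul_nonneg ht (by linarith)
  · have := (prof_deriv_mono hp).monotone ht
    exact mul_nonneg_of_nonpos_of_nonpos ht (by linarith)

theorem prof_pos (hp : IsProf h tc ψ) (t : ℝ) : 0 < ψ t := by
  have h1 := hp.S_pos t
  have h2 := prof_mul_deriv_nonneg hp t
  rw [Sf] at h1
  linarith

theorem prof_abs (hp : IsProf h tc ψ) (t : ℝ) : ψ |t| = ψ t := by
  rcases abs_choice t with h1 | h1 <;> rw [h1]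
  exact hp.even t

theorem prof_cap (hp : IsProf h tc ψ) (t : ℝ) (ht : tc ≤ |t|) :
    ψ t = (h * |t| - Real.sqrt (t ^ 2 - h ^ 2 + 1)) / (h ^ 2 - 1) := by
  rw [← prof_abs hp, hp.cap _ ht, psiCap, sq_abs]

theorem h2_pos (hp : IsProf h tc ψ) : 0 < h ^ 2 - 1 := by
  have := hp.one_lt
  nlinarith

end prof

/-! ### the gauge function on frames -/

/-- square of the distance of `u` from the axis -/
noncomputable def r2 (x : ℍ) : ℝ := fu x 0 ^ 2 + fu x 1 ^ 2

theorem r2_nonneg (x : ℍ) : 0 ≤ r2 x := by unfold r2; positivity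

theorem r2_add {x : ℍ} (hx : x ≠ 0) : r2 x + fu x 2 ^ 2 = 1 := fu_sum hx

theorem contDiffAt_r2 {x : ℍ} (hx : x ≠ 0) : ContDiffAt ℝ ∞ r2 x :=
  ((contDiffAt_fu 0 hx).pow 2).add ((contDiffAt_fu 1 hx).pow 2)

/-- the gauge of the body of revolution -/
noncomputable def bodyFun (ψ : ℝ → ℝ) (h : ℝ) (x : ℍ) : ℝ :=
  if 0 < r2 x then Real.sqrt (r2 x) * ψ (fu x 2 / Real.sqrt (r2 x)) else 1 / (h + 1)

theorem bodyFun_pos_eq (ψ : ℝ → ℝ) (h : ℝ) {x : ℍ} (hx : 0 < r2 x) :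
    bodyFun ψ h x = Real.sqrt (r2 x) * ψ (fu x 2 / Real.sqrt (r2 x)) := if_pos hx

theorem bodyFun_cap {h tc : ℝ} {ψ : ℝ → ℝ} (hp : IsProf h tc ψ) {y : ℍ} (hy : y ≠ 0) {σ : ℝ}
    (hσ : 0 < σ * fu y 2) (hσ1 : |σ| = 1) (hc : tc ^ 2 * r2 y < fu y 2 ^ 2) :
    bodyFun ψ h y
      = (h * (σ * fu y 2) - Real.sqrt (fu y 2 ^ 2 - (h ^ 2 - 1) * r2 y)) / (h ^ 2 - 1) := by
  have hh := hp.one_lt
  have hh2 := h2_pos hp
  have habs : σ * fu y 2 = |fu y 2| := by
    have : |σ * fu y 2| = |fu y 2| := by rw [abs_mul, hσ1, one_mul]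
    rw [← this, abs_of_pos hσ]
  by_cases hr : 0 < r2 y
  · rw [bodyFun_pos_eq ψ h hr]
    have hs : 0 < Real.sqrt (r2 y) := Real.sqrt_pos.2 hr
    have hsq : Real.sqrt (r2 y) ^ 2 = r2 y := Real.sq_sqrt hr.le
    have hT : tc ≤ |fu y 2 / Real.sqrt (r2 y)| := by
      rw [abs_div, abs_of_pos hs, le_div_iff₀ hs]
      rw [← sq_le_sq₀ (mul_nonneg hp.tc_pos.le hs.le) (abs_nonneg _), mul_pow, hsq, sq_abs]
      exact hc.le
    rw [prof_cap hp _ hT, habs]
    have e1 : Real.sqrt (r2 y) * |fu y 2 / Real.sqrt (r2 y)| = |fu y 2| := by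
      rw [abs_div, abs_of_pos hs, mul_div_cancel₀ _ hs.ne']
    have e2 : Real.sqrt (r2 y) * Real.sqrt ((fu y 2 / Real.sqrt (r2 y)) ^ 2 - h ^ 2 + 1)
        = Real.sqrt (fu y 2 ^ 2 - (h ^ 2 - 1) * r2 y) := by
      rw [← Real.sqrt_mul hr.le, div_pow, hsq]
      congr 1
      field_simp
      ring
    rw [mul_div_assoc', mul_sub, e2, ← mul_assoc, mul_comm (Real.sqrt (r2 y)) h, mul_assoc, e1]
  · have hr0 : r2 y = 0 := le_antisymm (not_lt.1 hr) (r2_nonneg y)
    have h1 := r2_add hy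
    rw [hr0, zero_add] at h1
    have h2 : |fu y 2| = 1 := by
      rw [← sq_abs] at h1
      nlinarith [abs_nonneg (fu y 2)]
    rw [bodyFun, if_neg hr, habs, h2, hr0, h1]
    have : h + 1 ≠ 0 := by linarith
    have h3 : h ^ 2 - 1 ≠ 0 := hh2.ne'
    simp
    field_simp
    ring

/-- near a pole the function is given by the cap formula -/
theorem bodyFun_near_pole {h tc : ℝ} {ψ : ℝ → ℝ} (hp : IsProf h tc ψ) {x : ℍ} (hx : x ≠ 0)
    (hr : r2 x = 0) :
    ∀ᶠ y in 𝓝 x, bodyFun ψ h y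
      = (h * (fu x 2 * fu y 2) - Real.sqrt (fu y 2 ^ 2 - (h ^ 2 - 1) * r2 y)) / (h ^ 2 - 1) := by
  have h1 := r2_add hx
  rw [hr, zero_add] at h1
  have h2 : |fu x 2| = 1 := by
    rw [← sq_abs] at h1
    nlinarith [abs_nonneg (fu x 2)]
  have c2 : ContinuousAt (fun y => fu y 2) x := (contDiffAt_fu 2 hx).continuousAt
  have cr : ContinuousAt r2 x := (contDiffAt_r2 hx).continuousAt
  have e1 : ∀ᶠ y in 𝓝 x, 0 < fu x 2 * fu y 2 := by
    have : ContinuousAt (fun y => fu x 2 * fu y 2) x := continuousAt_const.mul c2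
    apply this.eventually (lt_mem_nhds _)
    nlinarith
  have e2 : ∀ᶠ y in 𝓝 x, 0 < fu y 2 ^ 2 - tc ^ 2 * r2 y := by
    have : ContinuousAt (fun y => fu y 2 ^ 2 - tc ^ 2 * r2 y) x :=
      (c2.pow 2).sub (continuousAt_const.mul cr)
    apply this.eventually (lt_mem_nhds _)
    change 0 < fu x 2 ^ 2 - tc ^ 2 * r2 x
    rw [hr]; nlinarith
  filter_upwards [e1, e2, isOpen_ne.mem_nhds (show x ∈ ({0}ᶜ : Set ℍ) from hx)] with y h3 h4 h5
  exact bodyFun_cap hp h5 h3 h2 (by linarith)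

theorem contDiffAt_bodyFun {h tc : ℝ} {ψ : ℝ → ℝ} (hp : IsProf h tc ψ) {x : ℍ} (hx : x ≠ 0) :
    ContDiffAt ℝ ∞ (bodyFun ψ h) x := by
  by_cases hr : 0 < r2 x
  · have cr : ContinuousAt r2 x := (contDiffAt_r2 hx).continuousAt
    have e : bodyFun ψ h =ᶠ[𝓝 x] fun y => Real.sqrt (r2 y) * ψ (fu y 2 / Real.sqrt (r2 y)) := by
      filter_upwards [cr.eventually (lt_mem_nhds hr)] with y hy
      exact bodyFun_pos_eq ψ h hy
    have h1 : ContDiffAt ℝ ∞ (fun y => Real.sqrt (r2 y)) x := (contDiffAt_r2 hx).sqrt hr.ne'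
    have h2 : ContDiffAt ℝ ∞ (fun y => fu y 2 / Real.sqrt (r2 y)) x :=
      (contDiffAt_fu 2 hx).div h1 (Real.sqrt_pos.2 hr).ne'
    exact (h1.mul (hp.smooth.contDiffAt.comp x h2)).congr_of_eventuallyEq e
  · have hr0 : r2 x = 0 := le_antisymm (not_lt.1 hr) (r2_nonneg x)
    have h1 := r2_add hx
    rw [hr0, zero_add] at h1
    have h2 : ContDiffAt ℝ ∞ (fun y => fu y 2 ^ 2 - (h ^ 2 - 1) * r2 y) x :=
      ((contDiffAt_fu 2 hx).pow 2).sub (contDiffAt_const.mul (contDiffAt_r2 hx))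
    have h3 : ContDiffAt ℝ ∞ (fun y => Real.sqrt (fu y 2 ^ 2 - (h ^ 2 - 1) * r2 y)) x := by
      apply h2.sqrt
      rw [hr0, h1]; simp
    have h4 : ContDiffAt ℝ ∞ (fun y => (h * (fu x 2 * fu y 2)
        - Real.sqrt (fu y 2 ^ 2 - (h ^ 2 - 1) * r2 y)) / (h ^ 2 - 1)) x :=
      ((contDiffAt_const.mul (contDiffAt_const.mul (contDiffAt_fu 2 hx))).sub h3).div_const _
    exact h4.congr_of_eventuallyEq (bodyFun_near_pole hp hx hr0)

theorem bodyFun_congr (ψ : ℝ → ℝ) (h : ℝ) (he : ∀ t, ψ (-t) = ψ t) {x y : ℍ} (hr : r2 x = r2 y)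
    (hu : fu x 2 = fu y 2 ∨ fu x 2 = - fu y 2) : bodyFun ψ h x = bodyFun ψ h y := by
  unfold bodyFun
  rw [hr]
  rcases hu with hu | hu
  · rw [hu]
  · rw [hu, neg_div, he]

/-- the gauge as an element of `SF` -/
noncomputable def bodySF {h tc : ℝ} {ψ : ℝ → ℝ} (hp : IsProf h tc ψ) : SF :=
  SF.of (bodyFun ψ h) (fun _ hx => (contDiffAt_bodyFun hp hx).contDiffWithinAt)
    (fun r x hr _ => by
      apply bodyFun_congr ψ h hp.even
      · simp only [r2, fu_smul_left x hr]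
      · left; rw [fu_smul_left x hr])

theorem bodySF_apply {h tc : ℝ} {ψ : ℝ → ℝ} (hp : IsProf h tc ψ) {x : ℍ} (hx : x ≠ 0) :
    (bodySF hp) x = bodyFun ψ h x := SF.of_apply hx

theorem bodySF_congr {h tc : ℝ} {ψ : ℝ → ℝ} (hp : IsProf h tc ψ) {x y : ℍ} (hxy : x = 0 ↔ y = 0)
    (hr : r2 x = r2 y) (hu : fu x 2 = fu y 2 ∨ fu x 2 = - fu y 2) :
    (bodySF hp) x = (bodySF hp) y := by
  by_cases hx : x = 0
  · have hy := hxy.1 hx
    rw [hx, hy]
  · have hy : y ≠ 0 := fun h => hx (hxy.2 h)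
    rw [bodySF_apply hp hx, bodySF_apply hp hy]
    exact bodyFun_congr ψ h hp.even hr hu

theorem bodySF_isU {h tc : ℝ} {ψ : ℝ → ℝ} (hp : IsProf h tc ψ) : IsU (bodySF hp) where
  rotI := fun x t => by
    apply bodySF_congr hp
    · simp [rot_ne_zero isImUnit_I t]
    · simp only [r2, fu_rotI]
    · left; rw [fu_rotI]
  mulK := fun x => by
    have hK : qK ≠ 0 := by
      intro h
      have := isImUnit_K.norm_eq
      simp [h] at this
    apply bodySF_congr hp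
    · simp [hK]
    · simp only [r2, fu_K, PiLp.neg_apply, neg_sq]
    · right; simp [fu_K]

theorem bodySF_rotInv {h tc : ℝ} {ψ : ℝ → ℝ} (hp : IsProf h tc ψ) : RotInv (bodySF hp) where
  rot := fun α x => by
    apply bodySF_congr hp
    · simp [rot_ne_zero isImUnit_K α]
    · simp only [r2, fu, fr_lrotK]
      have := Real.sin_sq_add_cos_sq α
      simp
      linear_combination (fr qI x 0 ^ 2 + fr qI x 1 ^ 2) * this
    · left; simp [fu, fr_lrotK]
  mulJ := fun x => by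
    have hJ : qJ ≠ 0 := by
      intro h
      have := isImUnit_J.norm_eq
      simp [h] at this
    apply bodySF_congr hp
    · simp [hJ]
    · simp only [r2, fu, fr_lJ]
      simp
    · right; simp [fu, fr_lJ]

theorem bodySF_pos {h tc : ℝ} {ψ : ℝ → ℝ} (hp : IsProf h tc ψ) {x : ℍ} (hx : x ≠ 0) :
    0 < (bodySF hp) x := by
  rw [bodySF_apply hp hx, bodyFun]
  split_ifs with hr
  · exact mul_pos (Real.sqrt_pos.2 hr) (prof_pos hp _)
  · have := hp.one_lt
    positivity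

/-! ### curvature away from the poles -/

theorem conv_away {h tc : ℝ} {ψ : ℝ → ℝ} (hp : IsProf h tc ψ) {x : ℍ} (hx : x ≠ 0)
    (hr : 0 < r2 x) : 0 < (bodySF hp) x + (DX (DX (bodySF hp))) x := by
  -- coordinates along the circle
  set A : ℝ → ℝ := fun t => Real.cos t * fu x 0 + Real.sin t * fv x 0 with hA
  set B : ℝ → ℝ := fun t => Real.cos t * fu x 1 + Real.sin t * fv x 1 with hB
  set Z : ℝ → ℝ := fun t => Real.cos t * fu x 2 + Real.sin t * fv x 2 with hZ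
  set A1 : ℝ → ℝ := fun t => Real.cos t * fv x 0 - Real.sin t * fu x 0 with hA1
  set B1 : ℝ → ℝ := fun t => Real.cos t * fv x 1 - Real.sin t * fu x 1 with hB1
  set Z1 : ℝ → ℝ := fun t => Real.cos t * fv x 2 - Real.sin t * fu x 2 with hZ1
  have dgen : ∀ a b t : ℝ, HasDerivAt (fun t => Real.cos t * a + Real.sin t * b)
      (Real.cos t * b - Real.sin t * a) t := by
    intro a b t
    have := ((Real.hasDerivAt_cos t).mul_const a).fun_add ((Real.hasDerivAt_sin t).mul_const b)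
    convert! this using 1
    ring
  have dgen1 : ∀ a b t : ℝ, HasDerivAt (fun t => Real.cos t * b - Real.sin t * a)
      (-(Real.cos t * a + Real.sin t * b)) t := by
    intro a b t
    have := ((Real.hasDerivAt_cos t).mul_const b).fun_sub ((Real.hasDerivAt_sin t).mul_const a)
    convert! this using 1
    ring
  have dA : ∀ t, HasDerivAt A (A1 t) t := dgen _ _
  have dB : ∀ t, HasDerivAt B (B1 t) t := dgen _ _
  have dZ : ∀ t, HasDerivAt Z (Z1 t) t := dgen _ _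
  have dA1 : ∀ t, HasDerivAt A1 (-A t) t := dgen1 _ _
  have dB1 : ∀ t, HasDerivAt B1 (-B t) t := dgen1 _ _
  have dZ1 : ∀ t, HasDerivAt Z1 (-Z t) t := dgen1 _ _
  set Q : ℝ → ℝ := fun t => A t ^ 2 + B t ^ 2 with hQ
  have dQ : ∀ t, HasDerivAt Q (2 * (A t * A1 t + B t * B1 t)) t := by
    intro t
    have := ((dA t).pow 2).add ((dB t).pow 2)
    convert! this using 1
    simp
    ring
  set R : ℝ → ℝ := fun t => Real.sqrt (Q t) with hR
  set R1 : ℝ → ℝ := fun t => (A t * A1 t + B t * B1 t) / R t with hR1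
  have hQ0 : Q 0 = r2 x := by simp [hQ, hA, hB, r2]
  have hcQ : ContinuousAt Q 0 := (dQ 0).continuousAt
  have hev : ∀ᶠ t in 𝓝 (0:ℝ), 0 < Q t := hcQ.eventually (lt_mem_nhds (by rw [hQ0]; exact hr))
  have hRpos : ∀ t, 0 < Q t → 0 < R t := fun t ht => Real.sqrt_pos.2 ht
  have dR : ∀ t, 0 < Q t → HasDerivAt R (R1 t) t := by
    intro t ht
    have := (dQ t).sqrt ht.ne'
    convert! this using 1
    simp only [hR1, hR]
    have h1 : Real.sqrt (Q t) ≠ 0 := (Real.sqrt_pos.2 ht).ne'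
    field_simp
  set T : ℝ → ℝ := fun t => Z t / R t with hT
  set T1 : ℝ → ℝ := fun t => (Z1 t * R t - Z t * R1 t) / R t ^ 2 with hT1
  have dT : ∀ t, 0 < Q t → HasDerivAt T (T1 t) t := fun t ht =>
    (dZ t).div (dR t ht) (hRpos t ht).ne'
  set G : ℝ → ℝ := fun t => R t * ψ (T t) with hG
  set G1 : ℝ → ℝ := fun t => R1 t * (ψ (T t) - T t * deriv ψ (T t)) + deriv ψ (T t) * Z1 t with hG1
  have dψ : ∀ t, 0 < Q t → HasDerivAt (fun t => ψ (T t)) (deriv ψ (T t) * T1 t) t :=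
    fun t ht => (prof_d0 hp (T t)).comp t (dT t ht)
  have dψ1 : ∀ t, 0 < Q t → HasDerivAt (fun t => deriv ψ (T t)) (deriv (deriv ψ) (T t) * T1 t) t :=
    fun t ht => (prof_d1 hp (T t)).comp t (dT t ht)
  have dG : ∀ t, 0 < Q t → HasDerivAt G (G1 t) t := by
    intro t ht
    have := (dR t ht).fun_mul (dψ t ht)
    convert! this using 1
    simp only [hG1, hT1]
    have h1 : R t ≠ 0 := (hRpos t ht).ne'
    have h2 : T t = Z t / R t := rfl
    have h3 : T t * R t = Z t := by rw [h2, div_mul_cancel₀ _ h1]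
    field_simp
    rw [← h3]
    ring
  have hr0 : 0 < Q 0 := by rw [hQ0]; exact hr
  have hR0 := hRpos 0 hr0
  -- derivative of `R1` at `0`
  have dR1 : HasDerivAt R1 (((A1 0 ^ 2 + B1 0 ^ 2 - A 0 ^ 2 - B 0 ^ 2) * R 0
      - (A 0 * A1 0 + B 0 * B1 0) * R1 0) / R 0 ^ 2) 0 := by
    have h1 := ((((dA 0).fun_mul (dA1 0)).fun_add ((dB 0).fun_mul (dB1 0))).fun_div (dR 0 hr0) hR0.ne')
    convert! h1 using 1
    congr 1
    ring
  have dG1 : HasDerivAt G1 (((A1 0 ^ 2 + B1 0 ^ 2 - A 0 ^ 2 - B 0 ^ 2) * R 0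
      - (A 0 * A1 0 + B 0 * B1 0) * R1 0) / R 0 ^ 2 * (ψ (T 0) - T 0 * deriv ψ (T 0))
      + R1 0 * (- (T 0 * (deriv (deriv ψ) (T 0) * T1 0)))
      + ((deriv (deriv ψ) (T 0) * T1 0) * Z1 0 + deriv ψ (T 0) * (- Z 0))) 0 := by
    have h1 := (dR1.fun_mul ((dψ 0 hr0).fun_sub ((dT 0 hr0).fun_mul (dψ1 0 hr0)))).fun_add
      ((dψ1 0 hr0).fun_mul (dZ1 0))
    convert! h1 using 1
    ring
  have key := DXDX_eq (p := bodySF hp) hx (G := G) (G1 := G1) (by
      filter_upwards [hev] with t ht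
      have h1 : r2 (x * rot qK t) = Q t := by
        simp only [r2, fu_rotK_apply, hQ, hA, hB]
      rw [bodySF_apply hp (rrot_ne_zero isImUnit_K hx t), bodyFun_pos_eq ψ h (by rw [h1]; exact ht),
        h1, fu_rotK_apply])
    (hev.mono fun t ht => dG t ht) dG1
  rw [key]
  have hp0 : (bodySF hp) x = R 0 * ψ (T 0) := by
    rw [bodySF_apply hp hx, bodyFun_pos_eq ψ h hr]
    simp only [hR, hT, hQ0]
    simp [hZ]
  rw [hp0]
  -- algebra
  have s1 := fu_sum hx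
  have s2 := fv_sum hx
  have s3 := fu_fv_sum hx
  have eA : A 0 = fu x 0 := by simp [hA]
  have eB : B 0 = fu x 1 := by simp [hB]
  have eZ : Z 0 = fu x 2 := by simp [hZ]
  have eA1 : A1 0 = fv x 0 := by simp [hA1]
  have eB1 : B1 0 = fv x 1 := by simp [hB1]
  have eZ1 : Z1 0 = fv x 2 := by simp [hZ1]
  rw [← eA, ← eB, ← eZ] at s1
  rw [← eA1, ← eB1, ← eZ1] at s2
  rw [← eA, ← eB, ← eZ, ← eA1, ← eB1, ← eZ1] at s3
  have hRsq : R 0 ^ 2 = A 0 ^ 2 + B 0 ^ 2 := Real.sq_sqrt hr0.le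
  have hR1e : R1 0 * R 0 = A 0 * A1 0 + B 0 * B1 0 := div_mul_cancel₀ _ hR0.ne'
  have hTe : T 0 * R 0 = Z 0 := div_mul_cancel₀ _ hR0.ne'
  have hT1e : T1 0 * R 0 = Z1 0 - T 0 * R1 0 := by
    simp only [hT1, hT]
    field_simp
  have hS := hp.S_pos (T 0)
  have hC := hp.conv (T 0)
  rw [Sf] at hS
  generalize T1 0 = τ1 at *
  generalize T 0 = τ at *
  generalize R1 0 = ρ1 at *
  generalize R 0 = ρ at *
  generalize A1 0 = a1 at *
  generalize B1 0 = b1 at *
  generalize Z1 0 = z1 at *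
  generalize A 0 = a at *
  generalize B 0 = b at *
  generalize Z 0 = z at *
  generalize ψ τ = P0 at *
  generalize deriv (deriv ψ) τ = P2 at *
  generalize deriv ψ τ = P1 at *
  have e : ρ * P0 + (((a1 ^ 2 + b1 ^ 2 - a ^ 2 - b ^ 2) * ρ - (a * a1 + b * b1) * ρ1) / ρ ^ 2
      * (P0 - τ * P1) + ρ1 * (-(τ * (P2 * τ1))) + (P2 * τ1 * z1 + P1 * -z))
      = (P0 - τ * P1) * ((a * b1 - a1 * b) ^ 2 / ρ ^ 3) + P2 * (ρ * τ1 ^ 2) := by
    have f1 : z = τ * ρ := hTe.symm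
    have f2 : z1 = τ1 * ρ + τ * ρ1 := by linarith
    have f3 : (((a1 ^ 2 + b1 ^ 2 - a ^ 2 - b ^ 2) * ρ - (a * a1 + b * b1) * ρ1) / ρ ^ 2)
        = (a * b1 - a1 * b) ^ 2 / ρ ^ 3 - ρ := by
      have f4 : ρ1 = (a * a1 + b * b1) / ρ := by rw [← hR1e, mul_div_cancel_right₀ _ hR0.ne']
      have f5 : ((a1 ^ 2 + b1 ^ 2 - a ^ 2 - b ^ 2) * ρ - (a * a1 + b * b1) * ρ1) / ρ ^ 2
          = ((a1 ^ 2 + b1 ^ 2 - a ^ 2 - b ^ 2) * ρ ^ 2 - (a * a1 + b * b1) ^ 2) / ρ ^ 3 := by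
        rw [f4]; field_simp
      have f6 : (a1 ^ 2 + b1 ^ 2 - a ^ 2 - b ^ 2) * ρ ^ 2 - (a * a1 + b * b1) ^ 2
          = (a * b1 - a1 * b) ^ 2 - ρ ^ 4 := by
        linear_combination (a1 ^ 2 + b1 ^ 2 + ρ ^ 2) * hRsq
      rw [f5, f6]
      field_simp
    rw [f3, f2, f1]
    ring
  rw [e]
  have n1 : 0 ≤ (a * b1 - a1 * b) ^ 2 / ρ ^ 3 := by positivity
  have n2 : 0 ≤ ρ * τ1 ^ 2 := by positivity
  rcases eq_or_lt_of_le n1 with h1 | h1
  · rcases eq_or_lt_of_le n2 with h2 | h2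
    · exfalso
      have g1 : a * b1 - a1 * b = 0 := by
        have : (a * b1 - a1 * b) ^ 2 = 0 := by
          have h3 : ρ ^ 3 ≠ 0 := by positivity
          have := h1.symm
          rwa [div_eq_zero_iff, or_iff_left h3] at this
        exact pow_eq_zero_iff (two_ne_zero) |>.1 this
      have g2 : τ1 = 0 := by
        have h3 := h2.symm
        rw [mul_eq_zero, or_iff_right hR0.ne'] at h3
        exact pow_eq_zero_iff (two_ne_zero) |>.1 h3
      rw [g2, zero_mul] at hT1e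
      have g3 : z1 * ρ ^ 2 = z * (a * a1 + b * b1) := by
        rw [← hTe, ← hR1e]
        linear_combination ρ ^ 2 * (-hT1e)
      have g4 : z1 = 0 := by
        have : z1 * (ρ ^ 2 + z ^ 2) = 0 := by linear_combination g3 + z * s3
        rw [hRsq, s1, mul_one] at this
        exact this
      have g5 : a * a1 + b * b1 = 0 := by rw [g4] at s3; linarith
      have g6 : (a ^ 2 + b ^ 2) * (a1 ^ 2 + b1 ^ 2) = 0 := by
        linear_combination (a * b1 - a1 * b) * g1 + (a * a1 + b * b1) * g5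
      rw [← hRsq] at g6
      have g7 : a1 ^ 2 + b1 ^ 2 = 0 := by
        rcases mul_eq_zero.1 g6 with h3 | h3
        · exact absurd h3 (by positivity)
        · exact h3
      rw [g7, g4] at s2
      norm_num at s2
    · have := mul_nonneg hS.le n1
      have := mul_pos hC h2
      linarith
  · have := mul_pos hS h1
    have := mul_nonneg hC.le n2
    linarith

/-! ### curvature at the poles -/

theorem conv_pole {h tc : ℝ} {ψ : ℝ → ℝ} (hp : IsProf h tc ψ) {x : ℍ} (hx : x ≠ 0)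
    (hr : r2 x = 0) : 0 < (bodySF hp) x + (DX (DX (bodySF hp))) x := by
  have hh := hp.one_lt
  have hh2 := h2_pos hp
  have s1 := fu_sum hx
  have s2 := fv_sum hx
  have s3 := fu_fv_sum hx
  have hr' := hr
  rw [r2] at hr'
  have u0 : fu x 0 = 0 := by nlinarith [sq_nonneg (fu x 0), sq_nonneg (fu x 1)]
  have u1 : fu x 1 = 0 := by nlinarith [sq_nonneg (fu x 0), sq_nonneg (fu x 1)]
  have u2 : fu x 2 ^ 2 = 1 := by rw [u0, u1] at s1; linarith
  have v2 : fv x 2 = 0 := by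
    rw [u0, u1] at s3
    have h3 : fu x 2 * fv x 2 = 0 := by linarith
    rcases mul_eq_zero.1 h3 with h4 | h4
    · rw [h4] at u2; norm_num at u2
    · exact h4
  rw [v2] at s2
  have v01 : fv x 0 ^ 2 + fv x 1 ^ 2 = 1 := by linarith
  set G : ℝ → ℝ := fun t => (h * Real.cos t - Real.sqrt (1 - h ^ 2 * Real.sin t ^ 2)) / (h ^ 2 - 1)
    with hG
  set K : ℝ → ℝ := fun t => h * (h * Real.cos t / Real.sqrt (1 - h ^ 2 * Real.sin t ^ 2) - 1)
    / (h ^ 2 - 1) with hK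
  set G1 : ℝ → ℝ := fun t => Real.sin t * K t with hG1
  have hcq : ContinuousAt (fun t : ℝ => 1 - h ^ 2 * Real.sin t ^ 2) 0 := by fun_prop
  have hev : ∀ᶠ t in 𝓝 (0:ℝ), 0 < 1 - h ^ 2 * Real.sin t ^ 2 :=
    hcq.eventually (lt_mem_nhds (by simp))
  have dq : ∀ t : ℝ, HasDerivAt (fun t : ℝ => 1 - h ^ 2 * Real.sin t ^ 2)
      (-(h ^ 2 * (2 * Real.sin t * Real.cos t))) t := by
    intro t
    have := (((Real.hasDerivAt_sin t).pow 2).const_mul (h ^ 2)).const_sub 1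
    convert! this using 1
    simp
  have ds : ∀ t : ℝ, 0 < 1 - h ^ 2 * Real.sin t ^ 2 →
      HasDerivAt (fun t : ℝ => Real.sqrt (1 - h ^ 2 * Real.sin t ^ 2))
      (-(h ^ 2 * (2 * Real.sin t * Real.cos t)) / (2 * Real.sqrt (1 - h ^ 2 * Real.sin t ^ 2))) t :=
    fun t ht => (dq t).sqrt ht.ne'
  have dG : ∀ t : ℝ, 0 < 1 - h ^ 2 * Real.sin t ^ 2 → HasDerivAt G (G1 t) t := by
    intro t ht
    have := (((Real.hasDerivAt_cos t).const_mul h).fun_sub (ds t ht)).div_const (h ^ 2 - 1)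
    convert! this using 1
    simp only [hG1, hK]
    have h1 : Real.sqrt (1 - h ^ 2 * Real.sin t ^ 2) ≠ 0 := (Real.sqrt_pos.2 ht).ne'
    have h2 : h ^ 2 - 1 ≠ 0 := hh2.ne'
    field_simp
    ring
  have hK0 : K 0 = h / (h + 1) := by
    simp only [hK]
    have h1 : h + 1 ≠ 0 := by linarith
    have h2 : h ^ 2 - 1 ≠ 0 := hh2.ne'
    simp
    field_simp
    ring
  have dK : DifferentiableAt ℝ K 0 := by
    have h0 : (0:ℝ) < 1 - h ^ 2 * Real.sin 0 ^ 2 := by simp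
    have h1 : Real.sqrt (1 - h ^ 2 * Real.sin 0 ^ 2) ≠ 0 := (Real.sqrt_pos.2 h0).ne'
    have h2 := ((((Real.hasDerivAt_cos 0).const_mul h).fun_div (ds 0 h0) h1).sub_const 1).const_mul h
    exact (h2.div_const (h ^ 2 - 1)).differentiableAt
  have dG1 : HasDerivAt G1 (h / (h + 1)) 0 := by
    have := (Real.hasDerivAt_sin 0).fun_mul dK.hasDerivAt
    convert! this using 1
    rw [hK0]; simp
  have key := DXDX_eq (p := bodySF hp) hx (G := G) (G1 := G1) (by
      have h1 := bodyFun_near_pole hp hx hr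
      have h2 : Tendsto (fun t : ℝ => x * rot qK t) (𝓝 0) (𝓝 x) := by
        have h3 : Continuous (fun t : ℝ => x * rot qK t) := continuous_const.mul (continuous_rot _)
        have h4 := h3.tendsto 0
        rwa [rot_zero, mul_one] at h4
      filter_upwards [h2.eventually h1] with t ht
      rw [bodySF_apply hp (rrot_ne_zero isImUnit_K hx t), ht]
      simp only [r2, fu_rotK_apply, u0, u1, v2, hG]
      have h5 := Real.sin_sq_add_cos_sq t
      congr 1
      · congr 1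
        · linear_combination h * Real.cos t * u2
        · congr 1
          linear_combination (Real.cos t ^ 2) * u2 + h5 - (h ^ 2 - 1) * Real.sin t ^ 2 * v01)
    (hev.mono fun t ht => dG t ht) dG1
  rw [key]
  have : 0 < (bodySF hp) x := bodySF_pos hp hx
  positivity

theorem body_holds : BodyStatement := by
  intro h tc ψ hp
  refine ⟨bodySF hp, ⟨bodySF_isU hp, fun x hx => bodySF_pos hp hx, fun x hx => ?_⟩,
    bodySF_rotInv hp, fun x hx hr => ?_⟩
  · rcases (r2_nonneg x).eq_or_lt with h1 | h1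
    · exact conv_pole hp hx h1.symm
    · exact conv_away hp hx h1
  · rw [bodySF_apply hp hx]
    exact bodyFun_pos_eq ψ h hr

end Pool.Agent.MP85963d.H37
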