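import Mathlib
import Pool.Agent.Lib.MP_85963d_gt.Interfaces

/-!
# Module GAUGE: admissible functions and their limits satisfy the sine inequality
-/

set_option autoImplicit false

open MeasureTheory Set Filter Topology Quaternion
open scoped Real ContDiff

namespace Pool.Agent.MP85963d.H37

open Pool.Agent.MP85963d SF

/-- Sturm comparison in integrated form -/
theorem sine_ineq (h h' h'' : ℝ → ℝ) (d1 : ∀ t, HasDerivAt h (h' t) t)
    (d2 : ∀ t, HasDerivAt h' (h'' t) t) (hc : ∀ t, 0 ≤ h t + h'' t)
    (a b c : ℝ) (hab : a < b) (hbc : b < c) (hca : c < a + π) :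
    h b * Real.sin (c - a) ≤ h a * Real.sin (c - b) + h c * Real.sin (b - a) := by
  -- the Wronskian with `sin (t - a)`
  set W : ℝ → ℝ := fun t => h' t * Real.sin (t - a) - h t * Real.cos (t - a) + h a with hW
  have hsub : ∀ t : ℝ, HasDerivAt (fun t : ℝ => t - a) 1 t := fun t => (hasDerivAt_id t).sub_const a
  have hsin : ∀ t : ℝ, HasDerivAt (fun t : ℝ => Real.sin (t - a)) (Real.cos (t - a)) t := by
    intro t
    simpa using (hsub t).sin
  have hcos : ∀ t : ℝ, HasDerivAt (fun t : ℝ => Real.cos (t - a)) (-Real.sin (t - a)) t := by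
    intro t
    simpa using (hsub t).cos
  have dW : ∀ t, HasDerivAt W ((h t + h'' t) * Real.sin (t - a)) t := by
    intro t
    have := ((((d2 t).mul (hsin t)).sub ((d1 t).mul (hcos t))).add_const (h a))
    convert! this using 1
    ring
  have sin_pos : ∀ t, a < t → t < a + π → 0 < Real.sin (t - a) := fun t h1 h2 =>
    Real.sin_pos_of_pos_of_lt_pi (by linarith) (by linarith)
  have hWmono : MonotoneOn W (Icc a c) := by
    apply monotoneOn_of_deriv_nonneg (convex_Icc a c)
    · exact fun t _ => (dW t).continuousAt.continuousWithinAt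
    · exact fun t _ => (dW t).differentiableAt.differentiableWithinAt
    · intro t ht
      rw [interior_Icc] at ht
      rw [(dW t).deriv]
      exact mul_nonneg (hc t) (sin_pos t ht.1 (by linarith [ht.2])).le
  have hW0 : W a = 0 := by simp [hW]
  have hWnn : ∀ t ∈ Icc a c, 0 ≤ W t := by
    intro t ht
    rw [← hW0]
    exact hWmono (left_mem_Icc.2 (by linarith)) ht ht.1
  -- the quotient
  set f : ℝ → ℝ := fun t => (h t - h a * Real.cos (t - a)) / Real.sin (t - a) with hf
  have df : ∀ t, a < t → t < a + π → HasDerivAt f (W t / Real.sin (t - a) ^ 2) t := by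
    intro t h1 h2
    have h3 := sin_pos t h1 h2
    have h4 := ((d1 t).sub ((hcos t).const_mul (h a))).div (hsin t) h3.ne'
    convert! h4 using 1
    have h5 := Real.sin_sq_add_cos_sq (t - a)
    simp only [hW, Pi.sub_apply]
    congr 1
    linear_combination (- h a) * h5
  have hfmono : MonotoneOn f (Icc b c) := by
    apply monotoneOn_of_deriv_nonneg (convex_Icc b c)
    · intro t ht
      exact (df t (by linarith [ht.1]) (by linarith [ht.2])).continuousAt.continuousWithinAt
    · intro t ht
      rw [interior_Icc] at ht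
      exact (df t (by linarith [ht.1]) (by linarith [ht.2])).differentiableAt.differentiableWithinAt
    · intro t ht
      rw [interior_Icc] at ht
      rw [(df t (by linarith [ht.1]) (by linarith [ht.2])).deriv]
      exact div_nonneg (hWnn t ⟨by linarith [ht.1], ht.2.le⟩) (sq_nonneg _)
  have key := hfmono (left_mem_Icc.2 hbc.le) (right_mem_Icc.2 hbc.le) hbc.le
  have sb := sin_pos b hab (by linarith)
  have sc := sin_pos c (by linarith) hca
  rw [hf] at key
  simp only at key
  rw [div_le_div_iff₀ sb sc] at key
  have e : Real.sin (c - b) = Real.sin (c - a) * Real.cos (b - a) - Real.cos (c - a) * Real.sin (b - a) := by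
    rw [← Real.sin_sub]; congr 1; ring
  rw [e]
  nlinarith [key]

theorem sine_adm {p : SF} (hp : Adm p) {x : ℍ} (hx : x ≠ 0) {a b c : ℝ} (hab : a < b) (hbc : b < c)
    (hca : c < a + π) :
    p (x * rot qK b) * Real.sin (c - a) ≤
      p (x * rot qK a) * Real.sin (c - b) + p (x * rot qK c) * Real.sin (b - a) := by
  refine sine_ineq (fun t => p (x * rot qK t)) (fun t => (DX p) (x * rot qK t))
    (fun t => (DX (DX p)) (x * rot qK t)) (fun t => SF.hasDerivAt_DX p hx t)
    (fun t => SF.hasDerivAt_DX (DX p) hx t) (fun t => ?_) a b c hab hbc hca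
  exact (hp.conv _ (rrot_ne_zero isImUnit_K hx t)).le

theorem cts_SF (p : SF) : Cts p where
  cont := p.continuousOn
  hom := fun _ x hr _ => p.hom hr x

theorem gauge_holds : GaugeFacts where
  adm := fun p hp =>
    { cts := cts_SF p
      ctsq := cts_SF (DX p)
      isU := hp.isU
      pos := hp.pos
      deriv := fun x hx t => SF.hasDerivAt_DX p hx t
      sine := fun x hx a b c hab hbc hca => sine_adm hp hx hab hbc hca }
  lim := by
    intro P p q hP hp hq hU hpos hlim _ hder
    refine
      { cts := hp
        ctsq := hq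
        isU := hU
        pos := hpos
        deriv := hder
        sine := fun x hx a b c hab hbc hca => ?_ }
    have hpt : ∀ t : ℝ, Tendsto (fun m => (P m) (x * rot qK t)) atTop (𝓝 (p (x * rot qK t))) :=
      fun t => hlim.tendsto_at (rrot_ne_zero isImUnit_K hx t)
    refine le_of_tendsto_of_tendsto ((hpt b).mul_const _)
      (((hpt a).mul_const _).add ((hpt c).mul_const _)) (Eventually.of_forall fun m => ?_)
    exact sine_adm (hP m) hx hab hbc hca

end Pool.Agent.MP85963d.H37
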