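import Mathlib
import Pool.Agent.Lib.MP_85963d_gt.Interfaces
import Pool.Agent.Lib.MP_85963d_gt.H26.Red
import Pool.Agent.Lib.MP_85963d_gt.H37.FrameAux
import Pool.Agent.Lib.MP_85963d_gt.H45.Befn
import Pool.Agent.Lib.MP_85963d_gt.H59.Sphere

/-!
# Module PFN: functionals `∫ ϖ g` as pairings with smooth functions
-/

set_option autoImplicit false

open MeasureTheory Set Filter Topology Quaternion
open scoped Real ContDiff

namespace Pool.Agent.MP85963d.H37

open H45 (P4 kap kap_smooth)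
open H26

/-- the weight `w(t) t⁴ (1+t²)²` -/
noncomputable def bw (w : ℝ → ℝ) (t : ℝ) : ℝ := w t * (t ^ 4 * (1 + t ^ 2) ^ 2)

/-- the function `P` -/
noncomputable def pf (w : ℝ → ℝ) (x : ℍ) : ℝ :=
  P4 (fu x 0) (fu x 1) * kap (bw w) (fu x 2 ^ 2)

/-- the pole -/
noncomputable def pole : ℍ := 1 - qI - qJ - qK

theorem pole_re : pole.re = 1 := by
  simp only [pole, Quaternion.re_sub, Quaternion.re_one]
  change (1:ℝ) - 0 - 0 - 0 = 1
  norm_num

theorem pole_ne : pole ≠ 0 := by
  intro h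
  have := pole_re
  rw [h] at this
  simp at this

theorem conj_pole_I : conjQ pole qI = qK := by
  rw [conjQ, mul_inv_eq_iff_eq_mul₀ pole_ne]
  simp only [pole, sub_mul, mul_sub, one_mul, mul_one, isImUnit_I.sq, isImUnit_K.sq, qJ_mul_qI,
    qK_mul_qI, qK_mul_qJ]
  abel

theorem conj_pole_J : conjQ pole qJ = qI := by
  rw [conjQ, mul_inv_eq_iff_eq_mul₀ pole_ne]
  simp only [pole, sub_mul, mul_sub, one_mul, mul_one, isImUnit_I.sq, isImUnit_J.sq, qI_mul_qJ,
    qK_mul_qJ, qI_mul_qK]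
  abel

theorem conj_pole_K : conjQ pole qK = qJ := by
  rw [conjQ, mul_inv_eq_iff_eq_mul₀ pole_ne]
  simp only [pole, sub_mul, mul_sub, one_mul, mul_one, isImUnit_K.sq, isImUnit_J.sq, qI_mul_qK,
    qJ_mul_qK, qJ_mul_qI]
  abel

theorem fu_pole : fu pole = !₂[0, 0, 1] := by rw [fu, fr, conj_pole_I, im3_qK]
theorem fv_pole : fv pole = !₂[1, 0, 0] := by rw [fv, fr, conj_pole_J, im3_qI]
theorem fe_pole : fe pole = !₂[0, 1, 0] := by rw [fe, fr, conj_pole_K, im3_qJ]

theorem fu_polar (θ r : ℝ) : fu (pole * rot qI θ * rot qK r) =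
    !₂[Real.sin r * Real.cos θ, Real.sin r * Real.sin θ, Real.cos r] := by
  rw [fu_rotK, fu_rotI, fv_rotI, fu_pole, fv_pole, fe_pole]
  ext i
  fin_cases i <;> simp

theorem conjQ_sub37 (x a b : ℍ) : conjQ x (a - b) = conjQ x a - conjQ x b := by
  simp [conjQ, mul_sub, sub_mul]

/-- the frames `rot(k,θ) rot(j,-s)` -/
theorem fu_lat (θ s : ℝ) : fu (rot qK θ * rot qJ (-s)) =
    !₂[Real.cos s * Real.cos θ, Real.cos s * Real.sin θ, Real.sin s] := by
  rw [fu, fr, conjQ_mul, conj_rotJ_I, conjQ_sub37, conjQ_smul, conjQ_smul, conj_rotK_I,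
    conj_rot_self isImUnit_K]
  simp only [map_add, map_sub, map_smul, im3_qI, im3_qJ, im3_qK, Real.cos_neg, Real.sin_neg]
  ext i
  fin_cases i <;> simp

theorem polar_eq_lat {f : ℍ → ℝ} (hf : Cts f) (hu : IsU f) (θ r : ℝ) :
    f (pole * rot qI θ * rot qK r) = f (rot qK θ * rot qJ (-(π / 2 - r))) := by
  apply eq_of_fu hf hu
  · exact rrot_ne_zero isImUnit_K (rrot_ne_zero isImUnit_I pole_ne _) _
  · exact lrot_ne_zero isImUnit_K (rot_ne_zero isImUnit_J _) _
  · rw [fu_polar, fu_lat, Real.cos_pi_div_two_sub, Real.sin_pi_div_two_sub]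

theorem xj_tan {s : ℝ} (h1 : -(π / 2) < s) (h2 : s < π / 2) : xj (Real.tan s) = rot qJ (-s) := by
  rw [xj, Real.arctan_tan h1 h2]

theorem bw_smooth {w : ℝ → ℝ} (h : ContDiff ℝ ∞ w) : ContDiff ℝ ∞ (bw w) := by
  unfold bw
  fun_prop

theorem bw_compact {w : ℝ → ℝ} (h : HasCompactSupport w) : HasCompactSupport (bw w) :=
  HasCompactSupport.mul_right h

theorem bw_tsupport {w : ℝ → ℝ} : tsupport (bw w) ⊆ tsupport w :=
  tsupport_mul_subset_left

theorem pf_sm {w : ℝ → ℝ} (hs : ContDiff ℝ ∞ w) (hc : HasCompactSupport w)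
    (h0 : tsupport w ⊆ Ioi 0) : ContDiffOn ℝ ∞ (pf w) {0}ᶜ := by
  have hk := kap_smooth (bw_smooth hs) (bw_compact hc) (bw_tsupport.trans h0)
  intro x hx
  have hx : x ≠ 0 := hx
  apply ContDiffAt.contDiffWithinAt
  have c0 := contDiffAt_fu 0 hx
  have c1 := contDiffAt_fu 1 hx
  have c2 := contDiffAt_fu 2 hx
  unfold pf P4
  refine ContDiffAt.mul ?_ (hk.contDiffAt.comp x (c2.pow 2))
  exact (((c0).pow 4).sub ((contDiffAt_const.mul ((c0).pow 2)).mul
        ((c1).pow 2))).add ((c1).pow 4)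

theorem P4_trig (θ c : ℝ) : P4 (c * Real.cos θ) (c * Real.sin θ) = c ^ 4 * Real.cos (4 * θ) := by
  have h4 : Real.cos (4 * θ) = 8 * Real.cos θ ^ 4 - 8 * Real.cos θ ^ 2 + 1 := by
    have : (4:ℝ) * θ = 2 * (2 * θ) := by ring
    rw [this, Real.cos_two_mul, Real.cos_two_mul]; ring
  have h2 : Real.sin θ ^ 2 = 1 - Real.cos θ ^ 2 := by
    have := Real.sin_sq_add_cos_sq θ; linarith
  have h3 : Real.sin θ ^ 4 = (1 - Real.cos θ ^ 2) ^ 2 := by rw [← h2]; ring
  rw [h4, P4, mul_pow, mul_pow, mul_pow, mul_pow, h2, h3]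
  ring

theorem kap_bw {w : ℝ → ℝ} (h0 : w 0 = 0) {s : ℝ} (hs : Real.cos s ≠ 0) :
    Real.cos s ^ 4 * kap (bw w) (Real.sin s ^ 2) = w |Real.tan s| / Real.cos s ^ 4 := by
  have h1 : Real.sin s ^ 2 / (1 - Real.sin s ^ 2) = Real.tan s ^ 2 := by
    rw [← Real.cos_sq', Real.tan_eq_sin_div_cos, div_pow]
  rw [kap, h1, Real.sqrt_sq_eq_abs, bw]
  by_cases h : Real.sin s = 0
  · have : Real.tan s = 0 := by rw [Real.tan_eq_sin_div_cos, h, zero_div]
    rw [this, abs_zero, h0]; simp
  · have e1 : |Real.tan s| ^ 4 = Real.tan s ^ 4 := by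
      have : |Real.tan s| ^ 4 = (|Real.tan s| ^ 2) ^ 2 := by ring
      rw [this, sq_abs]; ring
    have e2 : (1 + |Real.tan s| ^ 2) = 1 / Real.cos s ^ 2 := by
      rw [sq_abs, Real.tan_eq_sin_div_cos]
      field_simp
      have := Real.sin_sq_add_cos_sq s
      linarith
    rw [e1, e2, Real.tan_eq_sin_div_cos]
    field_simp

/-- the one-dimensional integrand -/
noncomputable def hh (w : ℝ → ℝ) (y : ℍ → ℝ) (s : ℝ) : ℝ :=
  gy y (Real.tan s) * w |Real.tan s| / Real.cos s ^ 2

theorem integrand {w : ℝ → ℝ} (h0 : w 0 = 0) {y : ℍ → ℝ} (hy : Cts y) (hu : IsU y)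
    (hm : Mode 4 y) {P : SF} (hP : ∀ x : ℍ, P x = pf w x) (θ r : ℝ) (hr0 : 0 ≤ r) (hr : r ≤ π) :
    y (pole * rot qI θ * rot qK r) * P (pole * rot qI θ * rot qK r) * Real.sin r
      = Real.cos (4 * θ) ^ 2 * hh w y (π / 2 - r) := by
  rcases eq_or_lt_of_le hr0 with h | h
  · rw [← h, Real.sin_zero, mul_zero, hh, sub_zero, Real.cos_pi_div_two]; simp
  rcases eq_or_lt_of_le hr with h' | h'
  · rw [h', Real.sin_pi, mul_zero, hh]
    have : π / 2 - π = -(π / 2) := by ring
    rw [this, Real.cos_neg, Real.cos_pi_div_two]; simp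
  set s := π / 2 - r with hs
  have hcos : 0 < Real.cos s := Real.cos_pos_of_mem_Ioo ⟨by linarith, by linarith⟩
  have e1 : y (pole * rot qI θ * rot qK r) = Real.cos (4 * θ) * y (xj (Real.tan s)) := by
    rw [polar_eq_lat hy hu, ← hs, ← xj_tan (s := s) (by linarith) (by linarith),
      mode_eval hu hm]
  have e2 : P (pole * rot qI θ * rot qK r)
      = Real.cos (4 * θ) * (w |Real.tan s| / Real.cos s ^ 4) := by
    rw [hP, pf, fu_polar]
    have a1 : Real.sin r = Real.cos s := by rw [hs, Real.cos_pi_div_two_sub]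
    have a2 : Real.cos r = Real.sin s := by rw [hs, Real.sin_pi_div_two_sub]
    have b0 : (!₂[Real.sin r * Real.cos θ, Real.sin r * Real.sin θ, Real.cos r] : E3) 0
      = Real.sin r * Real.cos θ := rfl
    have b1 : (!₂[Real.sin r * Real.cos θ, Real.sin r * Real.sin θ, Real.cos r] : E3) 1
      = Real.sin r * Real.sin θ := rfl
    have b2 : (!₂[Real.sin r * Real.cos θ, Real.sin r * Real.sin θ, Real.cos r] : E3) 2
      = Real.cos r := rfl
    rw [b0, b1, b2, P4_trig, a1, a2, mul_right_comm, kap_bw h0 hcos.ne']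
    ring
  have e3 : y (xj (Real.tan s)) = gy y (Real.tan s) * Real.cos s := by
    have : Real.sqrt (1 + Real.tan s ^ 2) * Real.cos s = 1 := by
      have h1 : Real.sqrt (1 + Real.tan s ^ 2) = 1 / Real.cos s := by
        rw [show (1 + Real.tan s ^ 2) = (1 / Real.cos s) ^ 2 by
          rw [Real.tan_eq_sin_div_cos]
          field_simp
          have := Real.sin_sq_add_cos_sq s
          linarith, Real.sqrt_sq (by positivity)]
      rw [h1]; field_simp
    rw [gy]
    linear_combination (-y (xj (Real.tan s))) * this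
  have e4 : Real.sin r = Real.cos s := by rw [hs, Real.cos_pi_div_two_sub]
  rw [e1, e2, e3, e4, hh]
  field_simp

theorem integral_cos4 : ∫ θ in (0:ℝ)..(2 * π), Real.cos (4 * θ) ^ 2 = π := by
  have h1 : ∀ θ : ℝ, Real.cos (4 * θ) ^ 2 = 1 / 2 + Real.cos (8 * θ) / 2 := by
    intro θ
    rw [show (8:ℝ) * θ = 2 * (4 * θ) by ring, Real.cos_two_mul]; ring
  simp_rw [h1]
  have h2 : ∀ x ∈ uIcc (0:ℝ) (2 * π), HasDerivAt (fun θ => θ / 2 + Real.sin (8 * θ) / 16)
      (1 / 2 + Real.cos (8 * x) / 2) x := by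
    intro x _
    have a := (Real.hasDerivAt_sin (8 * x)).comp x ((hasDerivAt_id x).const_mul 8)
    have b := ((hasDerivAt_id x).div_const 2).add (a.div_const 16)
    refine b.congr_deriv ?_
    simp; ring
  rw [intervalIntegral.integral_eq_sub_of_hasDerivAt h2
    (Continuous.intervalIntegrable (by fun_prop) _ _)]
  have : Real.sin (8 * (2 * π)) = 0 := by
    have : (8:ℝ) * (2 * π) = ((16:ℕ):ℝ) * π := by push_cast; ring
    rw [this, Real.sin_nat_mul_pi]
  rw [this]; simp

theorem tan_arctan_cont {t₁ : ℝ} {s : ℝ} (h1 : Real.arctan t₁ ≤ s) (h2 : s < π / 2) :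
    t₁ ≤ Real.tan s := by
  rw [← Real.tan_arctan t₁]
  rcases eq_or_lt_of_le h1 with h | h
  · rw [h]
  · exact (Real.tan_lt_tan_of_lt_of_lt_pi_div_two (Real.neg_pi_div_two_lt_arctan t₁) h2 h).le

theorem integral_hh {t₁ : ℝ} (ht : 0 < t₁) {w : ℝ → ℝ} (hw : Continuous w)
    (h1 : ∀ t, t₁ ≤ t → w t = 0) {y : ℍ → ℝ} (hy : Cts y) (hu : IsU y)
    (hm : Mode 4 y) :
    ∫ s in (-(π / 2))..(π / 2), hh w y s = 2 * ∫ t in (0:ℝ)..t₁, w t * gy y t := by
  set b := Real.arctan t₁ with hb
  have hb0 : 0 < b := Real.arctan_pos.2 ht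
  have hb1 : b < π / 2 := Real.arctan_lt_pi_div_two t₁
  have hcont : ContinuousOn (hh w y) (Icc 0 b) := by
    intro s hs
    have hc : Real.cos s ≠ 0 := (Real.cos_pos_of_mem_Ioo ⟨by linarith [hs.1, Real.pi_pos],
      by linarith [hs.2]⟩).ne'
    have ht : ContinuousAt Real.tan s := Real.continuousAt_tan.2 hc
    apply ContinuousAt.continuousWithinAt
    unfold hh
    refine ContinuousAt.div (ContinuousAt.mul ?_ ?_) ?_ (pow_ne_zero 2 hc)
    · exact (gy_cont hy).continuousAt.comp ht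
    · exact hw.continuousAt.comp ht.abs
    · exact (Real.continuous_cos.continuousAt).pow 2
  have hzero : ∀ s ∈ Icc b (π / 2), hh w y s = 0 := by
    intro s hs
    rcases eq_or_lt_of_le hs.2 with h | h
    · rw [hh, h, Real.cos_pi_div_two]; simp
    · have h2 := tan_arctan_cont hs.1 h
      rw [hh, h1 _ (h2.trans (le_abs_self _))]; simp
  have heven : ∀ s, hh w y (-s) = hh w y s := by
    intro s
    rw [hh, hh, Real.tan_neg, abs_neg, Real.cos_neg, gy_even hu hm]
  have i1 : IntervalIntegrable (hh w y) volume 0 b := by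
    apply ContinuousOn.intervalIntegrable
    rwa [uIcc_of_le hb0.le]
  have i2 : IntervalIntegrable (hh w y) volume b (π / 2) := by
    have : IntervalIntegrable (fun _ : ℝ => (0:ℝ)) volume b (π / 2) := intervalIntegrable_const
    refine this.congr ?_
    intro s hs
    rw [uIoc_of_le hb1.le] at hs
    exact (hzero s ⟨hs.1.le, hs.2⟩).symm
  have i3 : IntervalIntegrable (hh w y) volume 0 (π / 2) := i1.trans i2
  have i4 : IntervalIntegrable (hh w y) volume (-(π / 2)) 0 := by
    have h := (IntervalIntegrable.iff_comp_neg (f := hh w y) (by finiteness)).1 i3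
    rw [neg_zero] at h
    refine (h.symm).congr ?_
    intro s _
    exact heven s
  have e1 : ∫ s in (-(π / 2))..0, hh w y s = ∫ s in (0:ℝ)..(π / 2), hh w y s := by
    have h := intervalIntegral.integral_comp_neg (a := 0) (b := π / 2) (fun s => hh w y s)
    rw [neg_zero] at h
    rw [← h]
    exact intervalIntegral.integral_congr fun s _ => heven s
  have e2 : ∫ s in b..(π / 2), hh w y s = 0 := by
    rw [intervalIntegral.integral_congr (g := fun _ => (0:ℝ)), intervalIntegral.integral_zero]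
    intro s hs
    rw [uIcc_of_le hb1.le] at hs
    exact hzero s hs
  have e3 : ∫ s in (0:ℝ)..b, hh w y s = ∫ t in (0:ℝ)..t₁, w t * gy y t := by
    have h := intervalIntegral.integral_comp_mul_deriv' (a := 0) (b := t₁) (f := Real.arctan)
      (f' := fun t => 1 / (1 + t ^ 2)) (g := hh w y) (fun x _ => Real.hasDerivAt_arctan x)
      (by
        apply Continuous.continuousOn
        refine Continuous.div (by fun_prop) (by fun_prop) fun t => by positivity)
      (by
        refine hcont.mono ?_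
        rintro _ ⟨t, ht', rfl⟩
        rw [uIcc_of_le ht.le] at ht'
        refine ⟨Real.arctan_nonneg.2 ht'.1, Real.arctan_strictMono.monotone ht'.2⟩)
    rw [Real.arctan_zero] at h
    rw [← h]
    apply intervalIntegral.integral_congr
    intro t ht'
    rw [uIcc_of_le ht.le] at ht'
    simp only [Function.comp_apply]
    rw [hh, Real.tan_arctan, Real.cos_sq_arctan, abs_of_nonneg ht'.1]
    field_simp
  rw [← intervalIntegral.integral_add_adjacent_intervals i4 i3, e1,
    ← intervalIntegral.integral_add_adjacent_intervals i1 i2, e2, e3]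
  ring

/-- PFN -/
theorem pfn_of (hS : SphereStatement) : PfnStatement := by
  obtain ⟨c, hc, hS⟩ := hS
  intro t₁ ϖ ht hsm hcs hsup
  set w : ℝ → ℝ := fun t => ϖ t * (1 / (2 * π * c)) with hw
  have hwsm : ContDiff ℝ ∞ w := hsm.mul contDiff_const
  have hwcs : HasCompactSupport w := HasCompactSupport.mul_right hcs
  have hwt : tsupport w ⊆ Ioo 0 t₁ := (tsupport_mul_subset_left).trans hsup
  have hwt0 : tsupport w ⊆ Ioi 0 := hwt.trans Ioo_subset_Ioi_self
  have hout : ∀ t, t ∉ Ioo 0 t₁ → w t = 0 := fun t ht =>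
    image_eq_zero_of_notMem_tsupport fun h => ht (hwt h)
  have hw0 : w 0 = 0 := hout 0 (by simp)
  have hhom : ∀ (r : ℝ) (x : ℍ), r ≠ 0 → x ≠ 0 → pf w (r • x) = pf w x := by
    intro r x hr _
    rw [pf, fu_smul_left x hr]; rfl
  set P : SF := SF.of (pf w) (pf_sm hwsm hwcs hwt0) hhom with hPdef
  have hfu0 : fu 0 = 0 := by rw [fu, fr, conjQ, zero_mul, zero_mul, map_zero]
  have hP : ∀ x : ℍ, P x = pf w x := by
    intro x
    by_cases hx : x = 0
    · subst hx
      rw [SF.map_zero', pf, hfu0]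
      simp [P4]
    · exact SF.of_apply hx
  refine ⟨P, fun y hy hu hm => ?_⟩
  have hfc : Cts (fun z => y z * P z) := by
    constructor
    · exact hy.cont.mul P.continuousOn
    · intro r x hr hx
      rw [hy.hom r x hr hx, P.hom hr]
  have hfU : IsU (fun z => y z * P z) := by
    constructor
    · intro x t
      rw [hu.rotI, hP, hP, pf, fu_rotI]; rfl
    · intro x
      have h1 : fu (x * qK) = - fu x := by
        have := fu_rotK x π
        rw [rot_pi] at this
        rw [this]; simp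
      rw [hu.mulK, hP, hP, pf, pf, h1]
      simp only [PiLp.neg_apply, P4]
      congr 1
      congr 1
      · ring
      · congr 1; ring
  have h1 := hS _ hfc hfU pole pole_ne
  have h2 : ip y P = ∫ z in shell, y z * P z := rfl
  rw [h2, h1]
  have h3 : ∀ θ : ℝ, ∫ r in (0:ℝ)..π, y (pole * rot qI θ * rot qK r)
      * P (pole * rot qI θ * rot qK r) * Real.sin r
      = Real.cos (4 * θ) ^ 2 * ∫ s in (-(π / 2))..(π / 2), hh w y s := by
    intro θ
    have a1 : ∫ r in (0:ℝ)..π, y (pole * rot qI θ * rot qK r)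
      * P (pole * rot qI θ * rot qK r) * Real.sin r
      = ∫ r in (0:ℝ)..π, Real.cos (4 * θ) ^ 2 * hh w y (π / 2 - r) := by
      apply intervalIntegral.integral_congr
      intro r hr
      rw [uIcc_of_le Real.pi_pos.le] at hr
      exact integrand hw0 hy hu hm hP θ r hr.1 hr.2
    rw [a1, intervalIntegral.integral_const_mul]
    congr 1
    have a2 := intervalIntegral.integral_comp_sub_left (a := 0) (b := π) (fun s => hh w y s) (π / 2)
    rw [a2, sub_zero]
    congr 1
    ring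
  simp_rw [h3]
  rw [intervalIntegral.integral_mul_const, integral_cos4,
    integral_hh ht hwsm.continuous (fun t h => hout t fun h' => absurd h'.2 (not_lt.2 h)) hy hu hm]
  have h5 : ∫ t in (0:ℝ)..t₁, w t * gy y t
      = (1 / (2 * π * c)) * ∫ t in (0:ℝ)..t₁, ϖ t * gy y t := by
    rw [← intervalIntegral.integral_const_mul]
    congr 1
    funext t
    rw [hw]; ring
  rw [h5]
  have := Real.pi_pos
  field_simp

theorem pfn_holds : PfnStatement := pfn_of H59.sphere_holds

end Pool.Agent.MP85963d.H37
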